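import Mathlib
import Pool.Agent.Lib.MP_bf61d2_nt.Trim.Places
import Pool.Agent.Lib.MP_bf61d2_nt.Trim.PrimeSum

set_option autoImplicit false

/-!
Local version (MP_bf61d2_nt): the places dividing an ideal, with the logarithms of their norms.
-/

namespace NumberField
end NumberField

namespace Pool.Agent.Lib.MP_bf61d2_nt.Perm
end Pool.Agent.Lib.MP_bf61d2_nt.Perm

namespace Pool.Agent.Lib.MP_bf61d2_nt.Artin.Ray

open NumberField IsDedekindDomain Filter Topology Module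

open Pool.Agent.Lib.MP_bf61d2_nt.Perm

variable {K : Type*} [Field K] [NumberField K]

/-- The product of different primes that divide `𝔪` divides `𝔪`. -/
lemma prod_dvd73 {𝔪 : Ideal (𝓞 K)} (S : Finset (HeightOneSpectrum (𝓞 K)))
    (h : ∀ v ∈ S, 𝔪 ≤ v.asIdeal) : (∏ v ∈ S, v.asIdeal) ∣ 𝔪 := by
  refine Finset.prod_dvd_of_coprime (fun v _ w _ hvw => ?_) fun v hv => Ideal.dvd_iff_le.mpr (h v hv)
  rw [Function.onFun, Ideal.isCoprime_iff_sup_eq]
  have h1 := v.isMaximal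
  have h2 := w.isMaximal
  exact Ideal.IsMaximal.coprime_of_ne h1 h2 fun he => hvw (HeightOneSpectrum.ext he)

/-- The logarithms of the norms of the primes dividing `𝔪`. -/
lemma sum_log_nm_le73 {𝔪 : Ideal (𝓞 K)} (hm : 𝔪 ≠ ⊥) (S : Finset (HeightOneSpectrum (𝓞 K)))
    (h : ∀ v ∈ S, 𝔪 ≤ v.asIdeal) : ∑ v ∈ S, Real.log (nm v) ≤ Real.log (Ideal.absNorm 𝔪) := by
  have h1 : (∏ v ∈ S, nm v) ∣ Ideal.absNorm 𝔪 := by
    have h2 := map_dvd (Ideal.absNorm (S := 𝓞 K)) (prod_dvd73 S h)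
    rwa [map_prod] at h2
  have h0 : Ideal.absNorm 𝔪 ≠ 0 := by
    rw [Ne, Ideal.absNorm_eq_zero_iff]
    exact hm
  have h3 : ∏ v ∈ S, nm v ≤ Ideal.absNorm 𝔪 := Nat.le_of_dvd (Nat.pos_of_ne_zero h0) h1
  have hpos : ∀ v ∈ S, (nm v : ℝ) ≠ 0 := fun v _ => (nm_pos' v).ne'
  rw [← Real.log_prod hpos]
  refine Real.log_le_log (Finset.prod_pos fun v _ => nm_pos' v) ?_
  exact_mod_cast h3

open scoped Classical in
/-- BADL: the places dividing `𝔪`, with the weights `log (N v) * (N v) ^ (-σ)`. -/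
theorem badL73 {𝔪 : Ideal (𝓞 K)} (hm : 𝔪 ≠ ⊥) {σ : ℝ} (hσ : 0 ≤ σ) :
    Summable (fun v : HeightOneSpectrum (𝓞 K) =>
      if 𝔪 ≤ v.asIdeal then wp σ v * Real.log (nm v) else 0) ∧
    ∑' v : HeightOneSpectrum (𝓞 K), (if 𝔪 ≤ v.asIdeal then wp σ v * Real.log (nm v) else 0) ≤
      Real.log (Ideal.absNorm 𝔪) := by
  have hw : ∀ v : HeightOneSpectrum (𝓞 K), wp σ v ≤ 1 := fun v => by
    have h5 : (1 : ℝ) ≤ nm v := by exact_mod_cast (one_lt_nm v).le
    exact Real.rpow_le_one_of_one_le_of_nonpos h5 (by linarith)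
  have hl : ∀ v : HeightOneSpectrum (𝓞 K), 0 ≤ Real.log (nm v) := fun v =>
    Real.log_nonneg (by exact_mod_cast (one_lt_nm v).le)
  have h0 : ∀ v : HeightOneSpectrum (𝓞 K),
      0 ≤ (if 𝔪 ≤ v.asIdeal then wp σ v * Real.log (nm v) else 0) := fun v => by
    split_ifs
    · exact mul_nonneg (wp_pos _ v).le (hl v)
    · exact le_rfl
  have key : ∀ S : Finset (HeightOneSpectrum (𝓞 K)),
      ∑ v ∈ S, (if 𝔪 ≤ v.asIdeal then wp σ v * Real.log (nm v) else 0) ≤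
        Real.log (Ideal.absNorm 𝔪) := by
    intro S
    rw [← Finset.sum_filter]
    refine le_trans (Finset.sum_le_sum fun v _ => ?_)
      (sum_log_nm_le73 hm (S.filter fun v => 𝔪 ≤ v.asIdeal) fun v hv => (Finset.mem_filter.mp hv).2)
    exact mul_le_of_le_one_left (hl v) (hw v)
  have hs := summable_of_sum_le h0 key
  exact ⟨hs, hs.tsum_le_of_sum_le key⟩

end Pool.Agent.Lib.MP_bf61d2_nt.Artin.Ray
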