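import Mathlib
import Pool.Agent.Lib.MP_bf61d2_nt.Trim.Artin.H.CLOH36
import Pool.Agent.Lib.MP_bf61d2_nt.Trim.Artin.H.DefsH
import Pool.Agent.Lib.MP_bf61d2_nt.Trim.Artin.R.DefsR

set_option autoImplicit false

/-!
LOCAL (MP_bf61d2_nt), module BESLT: the one sided inequality of Bessel, log free, with the second
moment of the coefficients.
-/

namespace NumberField
end NumberField

namespace Pool.Agent.Lib.MP_bf61d2_nt.Artin.Ray

open NumberField IsDedekindDomain Filter Topology Module

open scoped ComplexConjugate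

universe u

variable (K : Type u) [Field K] [NumberField K]

/-- The trivial character. -/
noncomputable def trivL73 : Ideal (𝓞 K) →*₀ ℂ where
  toFun I := by
    classical
    exact if I = 0 then 0 else 1
  map_zero' := if_pos rfl
  map_one' := if_neg one_ne_zero
  map_mul' I J := by
    classical
    show (if I * J = 0 then (0 : ℂ) else 1) = (if I = 0 then (0 : ℂ) else 1) *
      (if J = 0 then (0 : ℂ) else 1)
    by_cases hI : I = 0
    · rw [hI, zero_mul, if_pos rfl, zero_mul]
    · by_cases hJ : J = 0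
      · rw [hJ, mul_zero, if_pos rfl, mul_zero]
      · rw [if_neg (mul_ne_zero hI hJ), if_neg hI, if_neg hJ, one_mul]

lemma trivL73_apply {I : Ideal (𝓞 K)} (h : I ≠ 0) : trivL73 K I = 1 := by
  show (if I = 0 then (0 : ℂ) else 1) = 1
  rw [if_neg h]

lemma isRay_trivL73 : IsRay ⊤ (trivL73 K) := by
  refine ⟨fun γ h0 _ _ => trivL73_apply K fun h => h0 (Ideal.span_singleton_eq_bot.mp h),
    fun v => ?_⟩
  rw [trivL73_apply K v.ne_bot]
  exact ⟨fun h => absurd h one_ne_zero, fun h => absurd (top_le_iff.mp h) v.isPrime.ne_top⟩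

lemma isHk_trivL73 : IsHk ⊤ 1 (trivL73 K) := by
  refine ⟨top_ne_bot, 0, 0, isHe_of_isRay (isRay_trivL73 K), ?_⟩
  have : sz (0 : TA K) (0 : TB K) = 1 := by simp [sz]
  rw [this, Ideal.absNorm_top]
  norm_num

end Pool.Agent.Lib.MP_bf61d2_nt.Artin.Ray
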