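import Mathlib
import Pool.Agent.Lib.MP_bf61d2_nt.Trim.Artin.Defs63
import Pool.Agent.Lib.MP_bf61d2_nt.Trim.Artin.H.DefsH
import Pool.Agent.Lib.MP_bf61d2_nt.Trim.Artin.R.DefsR
import Pool.Agent.Lib.MP_bf61d2_nt.Trim.Places
import Pool.Agent.Lib.MP_bf61d2_nt.Trim.PrimeSum
import Pool.Agent.Lib.MP_bf61d2_nt.Trim.Structure

set_option autoImplicit false

/-!
LOCAL (MP_bf61d2_nt): log free repulsion at every scale. Definitions and the statements of the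
modules, as propositions.
-/

namespace NumberField
end NumberField

namespace Pool.Agent.Lib.MP_bf61d2_nt.Zeta
end Pool.Agent.Lib.MP_bf61d2_nt.Zeta

namespace Pool.Agent.Lib.MP_bf61d2_nt.Artin.Ray

open NumberField IsDedekindDomain

open Pool.Agent.Lib.MP_bf61d2_nt.Zeta

open scoped Classical

universe u

section Defs

variable {K : Type u} [Field K] [NumberField K]

/-- The weight `q ^ (-1-x) log q` of a place. -/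
noncomputable def wl (x : ℝ) (v : HeightOneSpectrum (𝓞 K)) : ℝ := wp (1 + x) v * Real.log (nm v)

/-- The weighted sum over the places with the weights `q ^ (-1-x) log q`. -/
noncomputable def WL (x : ℝ) (f : HeightOneSpectrum (𝓞 K) → ℂ) : ℂ := ∑' v, (wl x v : ℂ) * f v

/-- The prime sum of a character, with logarithms. -/
noncomputable def PSL (ψ : Ideal (𝓞 K) →*₀ ℂ) (x u : ℝ) : ℂ :=
  WL (K := K) x (fun v => ψ v.asIdeal * ph u (nm v))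

/-- The prime sum with coefficients, with logarithms. -/
noncomputable def CRL (c : HeightOneSpectrum (𝓞 K) → ℝ) (f : HeightOneSpectrum (𝓞 K) → ℂ)
    (x u : ℝ) : ℂ :=
  WL (K := K) x (fun v => (c v : ℂ) * (f v * ph u (nm v)))

lemma log_nm_pos (v : HeightOneSpectrum (𝓞 K)) : 0 < Real.log (nm v) :=
  Real.log_pos (by exact_mod_cast one_lt_nm v)

lemma wl_nonneg (x : ℝ) (v : HeightOneSpectrum (𝓞 K)) : 0 ≤ wl x v :=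
  mul_nonneg (wp_pos _ v).le (log_nm_pos v).le

lemma wl_le {x : ℝ} (hx : 0 < x) (v : HeightOneSpectrum (𝓞 K)) :
    wl x v ≤ 2 / x * wp (1 + x / 2) v := by
  have h0 : (0 : ℝ) < nm v := by exact_mod_cast nm_pos' v
  have h1 := Real.log_le_rpow_div h0.le (ε := x / 2) (by positivity)
  have h2 : wp (1 + x) v * (nm v : ℝ) ^ (x / 2) = wp (1 + x / 2) v := by
    rw [wp, wp, ← Real.rpow_add h0]
    congr 1
    ring
  calc wl x v ≤ wp (1 + x) v * ((nm v : ℝ) ^ (x / 2) / (x / 2)) :=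
        mul_le_mul_of_nonneg_left h1 (wp_pos _ v).le
    _ = 2 / x * (wp (1 + x) v * (nm v : ℝ) ^ (x / 2)) := by field_simp
    _ = _ := by rw [h2]

lemma summable_wl {x : ℝ} (hx : 0 < x) : Summable fun v : HeightOneSpectrum (𝓞 K) => wl x v :=
  Summable.of_nonneg_of_le (fun v => wl_nonneg x v) (fun v => wl_le hx v)
    ((summable_wp (K := K) (by linarith : 1 < 1 + x / 2)).mul_left _)

end Defs

variable (K : Type u) [Field K] [NumberField K]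

/-- PSL: the logarithmic derivative and the prime sum. -/
def StPSL : Prop := ∃ C : ℝ, 0 ≤ C ∧ ∀ ψ : Ideal (𝓞 K) →*₀ ℂ, (∀ I, ‖ψ I‖ ≤ 1) →
  ∀ s : ℂ, 1 < s.re → LI (ψ : Ideal (𝓞 K) → ℂ) s ≠ 0 ∧
    DifferentiableAt ℂ (LI (ψ : Ideal (𝓞 K) → ℂ)) s ∧
    ‖logDeriv (LI (ψ : Ideal (𝓞 K) → ℂ)) s + PSL ψ (s.re - 1) s.im‖ ≤ C

/-- ONEL: the one sided bound (Landau). -/
def StONEL : Prop := ∃ A : ℝ, 0 ≤ A ∧ ∀ (𝔪 : Ideal (𝓞 K)) (Z : ℕ) (ψ : Ideal (𝓞 K) →*₀ ℂ),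
  IsHk 𝔪 Z ψ → ∀ x u : ℝ, 0 < x → x ≤ 1 →
    (PSL ψ x u).re ≤ x / (x ^ 2 + u ^ 2) + A * Real.log (Z * (|u| + 20)) ∧
    (BD ψ → (PSL ψ x u).re ≤ A * Real.log (Z * (|u| + 20)))

/-- BESL: the one sided inequality of Bessel, log free. -/
def StBESL : Prop := ∃ C : ℝ, 0 ≤ C ∧ ∀ Q : ℝ, 20 ≤ Q →
  ∀ (c : HeightOneSpectrum (𝓞 K) → ℝ), (∀ v, |c v| ≤ 2) →
  ∀ δ : ℝ, 0 < δ → δ ≤ 1 / 2 → ∀ (n : ℕ) (𝔪 : Fin n → Ideal (𝓞 K)) (Z : Fin n → ℕ)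
    (ψ : Fin n → (Ideal (𝓞 K) →*₀ ℂ)) (t : Fin n → ℝ),
    (∀ i, IsHk (𝔪 i) (Z i) (ψ i) ∧ (Z i : ℝ) ≤ Q ∧ |t i| ≤ Q) →
    (∀ i j, i ≠ j → TR (𝔪 i * 𝔪 j) (ψ i * cj (ψ j)) → 1 / Real.log Q ≤ |t i - t j|) →
    ∀ g : Fin n → ℝ, (∀ i, 0 ≤ g i) →
    ‖∑ i, (g i : ℂ) * CRL c (fun v => ψ i v.asIdeal) δ (t i)‖ ^ 2 ≤
      4 / δ ^ 2 * ∑ i, g i ^ 2 + C * Real.log Q / δ * (∑ i, g i) ^ 2

/-- LELOG: the logarithmic derivative of the twisted L-function of `E`. -/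
def StLELOG : Prop := ∃ A : ℝ, 0 ≤ A ∧ ∀ (E : WeierstrassCurve K)
  (f : HeightOneSpectrum (𝓞 K) → ℂ), (∀ v, ‖f v‖ ≤ 1) → ∀ δ t : ℝ, 0 < δ →
    LE E f ((3 / 2 + δ : ℝ) + t * Complex.I) ≠ 0 ∧
    DifferentiableAt ℂ (LE E f) ((3 / 2 + δ : ℝ) + t * Complex.I) ∧
    ‖logDeriv (LE E f) ((3 / 2 + δ : ℝ) + t * Complex.I) +
      CRL (fun v => cc E v) f δ t‖ ≤ A

/-- The family of twists of the main theorem. -/
def OkFam (Q : ℝ) (n : ℕ) (d : Fin n → ℕ) (𝔪 : Fin n → Ideal (𝓞 K)) (a : Fin n → TA K)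
    (b : Fin n → TB K) (ψ : Fin n → (Ideal (𝓞 K) →*₀ ℂ)) (t : Fin n → ℝ) : Prop :=
  ∀ i, (0 < d i ∧ (d i : ℝ) ≤ Q) ∧ (𝔪 i ≠ ⊥ ∧ IsHe (𝔪 i) (a i) (b i) (ψ i)) ∧
      (Ideal.absNorm (𝔪 i) : ℝ) ≤ Q ∧ (∀ w, |(a i w : ℝ)| ≤ Q) ∧ (∀ w, |b i w| ≤ Q) ∧
      |t i| ≤ Q

/-- The twists `(d, ψ)` and `(d', ψ')` are the same (as `EqR`). -/
def SameTw (d d' : ℕ) (𝔪 𝔪' : Ideal (𝓞 K)) (ψ ψ' : Ideal (𝓞 K) →*₀ ℂ) : Prop :=
  ∀ v : HeightOneSpectrum (𝓞 K),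
    ¬ Ideal.span {((2 * d * d' : ℕ) : 𝓞 K)} * (𝔪 * 𝔪') ≤ v.asIdeal →
    ψ v.asIdeal * (jacobiSym d (Ideal.absNorm v.asIdeal) : ℂ) =
      ψ' v.asIdeal * (jacobiSym d' (Ideal.absNorm v.asIdeal) : ℂ)

end Pool.Agent.Lib.MP_bf61d2_nt.Artin.Ray
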