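import Mathlib
import Pool.Agent.Lib.MP_bf61d2_nt.Trim.Places
import Pool.Agent.Lib.MP_bf61d2_nt.Trim.PrimeSum

set_option autoImplicit false

/-!
Local version (MP_bf61d2_nt): the coefficients of the quadratic twist `E_d` in the sums over the
places with the weights `log (N v) * (N v) ^ (-1-r)`.
-/

namespace NumberField
end NumberField

namespace Pool.Agent.Lib.MP_bf61d2_nt.Perm
end Pool.Agent.Lib.MP_bf61d2_nt.Perm

namespace Pool.Agent.Lib.MP_bf61d2_nt.Artin.Ray

open NumberField IsDedekindDomain Filter Topology Module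

open Pool.Agent.Lib.MP_bf61d2_nt.Perm

section

variable {K : Type*} [Field K] [NumberField K]

/-- The weight `log (N v) * (N v) ^ (-σ)` is summable for `σ > 1`. -/
lemma wl_le73 {σ : ℝ} (hσ : 1 < σ) (v : HeightOneSpectrum (𝓞 K)) :
    0 ≤ wp σ v * Real.log (nm v) ∧
    wp σ v * Real.log (nm v) ≤ 2 / (σ - 1) * wp ((1 + σ) / 2) v := by
  have hn : (0 : ℝ) < nm v := nm_pos' v
  have hn1 : (1 : ℝ) ≤ nm v := by exact_mod_cast (one_lt_nm v).le
  refine ⟨mul_nonneg (wp_pos _ v).le (Real.log_nonneg hn1), ?_⟩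
  have hε : 0 < (σ - 1) / 2 := by linarith
  have h1 : Real.log (nm v) ≤ (nm v : ℝ) ^ ((σ - 1) / 2) / ((σ - 1) / 2) :=
    Real.log_le_rpow_div hn.le hε
  have h2 := mul_le_mul_of_nonneg_left h1 (wp_pos σ v).le
  refine h2.trans (le_of_eq ?_)
  have e1 : wp σ v * (nm v : ℝ) ^ ((σ - 1) / 2) = wp ((1 + σ) / 2) v := by
    rw [wp, wp, ← Real.rpow_add hn]
    congr 1
    ring
  rw [← e1]
  field_simp

lemma summable_wl73 {σ : ℝ} (hσ : 1 < σ) :
    Summable fun v : HeightOneSpectrum (𝓞 K) => wp σ v * Real.log (nm v) :=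
  Summable.of_nonneg_of_le (fun v => (wl_le73 hσ v).1) (fun v => (wl_le73 hσ v).2)
    ((summable_wp (by linarith)).mul_left _)

end

variable (K : Type*) [Field K] [NumberField K]

end Pool.Agent.Lib.MP_bf61d2_nt.Artin.Ray
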