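import Mathlib
import Pool.Agent.Lib.MP_bf61d2_nt.Trim.Artin.L.SLTW73
import Pool.Agent.Lib.MP_bf61d2_nt.Trim.Artin.T4x63
import Pool.Agent.Lib.MP_bf61d2_nt.Trim.Local
import Pool.Agent.Lib.MP_bf61d2_nt.Trim.LocalCurve
import Pool.Agent.Lib.MP_bf61d2_nt.Trim.Places
import Pool.Agent.Lib.MP_bf61d2_nt.Trim.PrimeSum
import Pool.Agent.Lib.MP_bf61d2_nt.Trim.Structure

set_option autoImplicit false

/-!
Local version (MP_bf61d2_nt): the second moment of the traces with the weights
`log (N v) * (N v) ^ (-1-r)`.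
-/

namespace NumberField
end NumberField

namespace Pool.Agent.Lib.MP_bf61d2_nt.Artin.Ray

open NumberField IsDedekindDomain Filter Topology Module

universe u

/-- The second moment of the traces of Frobenius with the weights `log (N v)`, over all finite
places. -/
noncomputable def T1 {K : Type*} [Field K] [NumberField K] (E : WeierstrassCurve K) (r : ℝ) : ℝ :=
  ∑' v : HeightOneSpectrum (𝓞 K), (((E.baseChange (v.adicCompletion K)).localPolynomial
    (v.adicCompletionIntegers K)).coeff 1 : ℝ) ^ 2 * Real.log (Ideal.absNorm v.asIdeal) *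
      (Ideal.absNorm v.asIdeal : ℝ) ^ (-(2 + r))

variable {K : Type u} [Field K] [NumberField K]

lemma T1_term73 (E : WeierstrassCurve K) (r : ℝ) (v : HeightOneSpectrum (𝓞 K)) :
    (((E.baseChange (v.adicCompletion K)).localPolynomial
    (v.adicCompletionIntegers K)).coeff 1 : ℝ) ^ 2 * Real.log (Ideal.absNorm v.asIdeal) *
      (Ideal.absNorm v.asIdeal : ℝ) ^ (-(2 + r)) =
    ((tr E v : ℝ) / Real.sqrt (nm v)) ^ 2 * (wp (1 + r) v * Real.log (nm v)) := by
  have hq : (0 : ℝ) < nm v := nm_pos' v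
  have e : (-(2 + r) : ℝ) = -1 + -(1 + r) := by ring
  have e1 : ((nm v : ℕ) : ℝ) = (Ideal.absNorm v.asIdeal : ℝ) := rfl
  rw [div_pow, Real.sq_sqrt hq.le, ← e1, e, Real.rpow_add hq, Real.rpow_neg_one, wp]
  have e2 : (tr E v : ℝ) ^ 2 = (((E.baseChange (v.adicCompletion K)).localPolynomial
    (v.adicCompletionIntegers K)).coeff 1 : ℝ) ^ 2 := by
    unfold tr lp
    push_cast
    rw [neg_sq]
  rw [e2]
  field_simp

/-- The second moment is summable, is at least the one of the coefficients `cc`, and is bounded. -/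
theorem T1_facts73 (E : WeierstrassCurve K) (δ : ℝ) (hδ : 0 < δ) :
    ∑' v : HeightOneSpectrum (𝓞 K), wp (1 + δ) v * Real.log (nm v) * cc E v ^ 2 ≤ T1 E δ ∧
    T1 E δ ≤ 4 * ∑' v : HeightOneSpectrum (𝓞 K), wp (1 + δ) v * Real.log (nm v) +
      ∑' v : HeightOneSpectrum (𝓞 K), (if pr v = 2 then Real.log (nm v) else 0) := by
  classical
  have hσ : 1 < 1 + δ := by linarith
  have hws := summable_wl73 (K := K) hσ
  have hl : ∀ v : HeightOneSpectrum (𝓞 K), 0 ≤ Real.log (nm v) := fun v =>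
    Real.log_nonneg (by exact_mod_cast (one_lt_nm v).le)
  have h2s : Summable fun v : HeightOneSpectrum (𝓞 K) =>
      if pr v = 2 then Real.log (nm v) else 0 := by
    refine summable_of_hasFiniteSupport ((finite_two (K := K)).subset fun v hv => ?_)
    by_contra h
    exact hv (if_neg h)
  have hT : T1 E δ = ∑' v : HeightOneSpectrum (𝓞 K),
      ((tr E v : ℝ) / Real.sqrt (nm v)) ^ 2 * (wp (1 + δ) v * Real.log (nm v)) :=
    tsum_congr fun v => T1_term73 E δ v
  have key : ∀ v : HeightOneSpectrum (𝓞 K),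
      ((tr E v : ℝ) / Real.sqrt (nm v)) ^ 2 * (wp (1 + δ) v * Real.log (nm v)) ≤
        4 * (wp (1 + δ) v * Real.log (nm v)) + if pr v = 2 then Real.log (nm v) else 0 := by
    intro v
    have hq : (0 : ℝ) < nm v := nm_pos' v
    have hw := (wp_pos (1 + δ) v).le
    have hwl := mul_nonneg hw (hl v)
    obtain ⟨-, ha1, -, ha⟩ := lp_eq E v
    by_cases hv : pr v = 2
    · rw [if_pos hv]
      have ha1' : |(tr E v : ℝ)| ≤ nm v := by exact_mod_cast ha1
      have h4 : ((tr E v : ℝ) / Real.sqrt (nm v)) ^ 2 ≤ nm v := by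
        rw [div_pow, Real.sq_sqrt hq.le, div_le_iff₀ hq, ← sq_abs]
        nlinarith [abs_nonneg (tr E v : ℝ)]
      have h5 : (nm v : ℝ) * wp (1 + δ) v ≤ 1 := by
        have : (nm v : ℝ) * (nm v : ℝ) ^ (-(1 + δ)) = (nm v : ℝ) ^ (-δ) := by
          nth_rewrite 1 [← Real.rpow_one (nm v : ℝ)]
          rw [← Real.rpow_add hq]
          congr 1
          ring
        rw [wp, this]
        refine Real.rpow_le_one_of_one_le_of_nonpos ?_ (by linarith)
        exact_mod_cast (one_lt_nm v).le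
      have h6 := mul_le_mul_of_nonneg_right h4 hwl
      have h7 : (nm v : ℝ) * (wp (1 + δ) v * Real.log (nm v)) ≤ Real.log (nm v) := by
        rw [← mul_assoc]
        exact mul_le_of_le_one_left (hl v) h5
      linarith
    · rw [if_neg hv, add_zero]
      have ha' : ((tr E v : ℝ)) ^ 2 ≤ 4 * nm v := by exact_mod_cast ha hv
      have h4 : ((tr E v : ℝ) / Real.sqrt (nm v)) ^ 2 ≤ 4 := by
        rw [div_pow, Real.sq_sqrt hq.le, div_le_iff₀ hq]
        exact ha'
      exact mul_le_mul_of_nonneg_right h4 hwl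
  have hgs : Summable fun v : HeightOneSpectrum (𝓞 K) =>
      ((tr E v : ℝ) / Real.sqrt (nm v)) ^ 2 * (wp (1 + δ) v * Real.log (nm v)) :=
    Summable.of_nonneg_of_le (fun v => mul_nonneg (sq_nonneg _)
      (mul_nonneg (wp_pos _ v).le (hl v))) key ((hws.mul_left 4).add h2s)
  have hle : ∀ v : HeightOneSpectrum (𝓞 K), wp (1 + δ) v * Real.log (nm v) * cc E v ^ 2 ≤
      ((tr E v : ℝ) / Real.sqrt (nm v)) ^ 2 * (wp (1 + δ) v * Real.log (nm v)) := by
    intro v
    have hwl := mul_nonneg (wp_pos (1 + δ) v).le (hl v)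
    unfold cc
    split_ifs with h
    · rw [mul_comm]
    · have := mul_nonneg (sq_nonneg ((tr E v : ℝ) / Real.sqrt (nm v))) hwl
      simpa using this
  have hs : Summable fun v : HeightOneSpectrum (𝓞 K) =>
      wp (1 + δ) v * Real.log (nm v) * cc E v ^ 2 :=
    Summable.of_nonneg_of_le (fun v => mul_nonneg (mul_nonneg (wp_pos _ v).le (hl v))
      (sq_nonneg _)) hle hgs
  rw [hT]
  refine ⟨hs.tsum_le_tsum hle hgs, ?_⟩
  refine (hgs.tsum_le_tsum key ((hws.mul_left 4).add h2s)).trans ?_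
  rw [(hws.mul_left 4).tsum_add h2s, tsum_mul_left]

end Pool.Agent.Lib.MP_bf61d2_nt.Artin.Ray
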