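import Mathlib
import Pool.Agent.Lib.MP_bf61d2_nt.Trim.Artin.L.StmtsL63
import Pool.Agent.Lib.MP_bf61d2_nt.Trim.Artin.L.T1M73
import Pool.Agent.Lib.MP_bf61d2_nt.Trim.Places
import Pool.Agent.Lib.MP_bf61d2_nt.Trim.PrimeSum
import Pool.Agent.Lib.MP_bf61d2_nt.Trim.Structure

set_option autoImplicit false

/-!
LOCAL (MP_bf61d2_nt), module MAINL: the logarithmic derivatives of the twists of the quadratic
twists `E_d` by all unitary Hecke characters near the edge.
-/

namespace NumberField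
end NumberField

namespace Pool.Agent.Lib.MP_bf61d2_nt.Artin.Ray

open NumberField IsDedekindDomain

open scoped Classical

universe u

variable {K : Type u} [Field K] [NumberField K]

lemma T1_nonneg73 (E : WeierstrassCurve K) {δ : ℝ} (hδ : 0 < δ) : 0 ≤ T1 E δ := by
  refine le_trans (tsum_nonneg fun v => ?_) (T1_facts73 E δ hδ).1
  exact mul_nonneg (wl_nonneg δ v) (sq_nonneg _)

lemma log_pow73 {Q : ℝ} (hQ : 20 ≤ Q) (M : ℕ) :
    Real.log ((4 * Q) ^ (M + 1)) ≤ 2 * (M + 1) * Real.log Q := by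
  rw [Real.log_pow]
  have h1 : Real.log (4 * Q) ≤ 2 * Real.log Q := by
    have h5 := Real.log_le_log (by positivity) (show 4 * Q ≤ Q ^ 2 by nlinarith)
    rwa [Real.log_pow] at h5
  push_cast
  have h6 : (0 : ℝ) ≤ (M : ℝ) + 1 := by positivity
  nlinarith [mul_le_mul_of_nonneg_left h1 h6]

end Pool.Agent.Lib.MP_bf61d2_nt.Artin.Ray
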