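import Mathlib

set_option autoImplicit false

/-!
LOCAL (MP_bf61d2_nt), module INTL: integration of the logarithmic derivatives.
-/

namespace NumberField
end NumberField

namespace Pool.Agent.Lib.MP_bf61d2_nt.Zeta
end Pool.Agent.Lib.MP_bf61d2_nt.Zeta

namespace Pool.Agent.Lib.MP_bf61d2_nt.Artin.Ray

open NumberField IsDedekindDomain Filter Topology

open Pool.Agent.Lib.MP_bf61d2_nt.Zeta

open scoped Classical

universe u

/-- The derivative of `log |f|` along a horizontal line. -/
lemma hasDerivAt_log_norm3 {f : ℂ → ℂ} {c r t : ℝ}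
    (h0 : f ((c + r : ℝ) + t * Complex.I) ≠ 0)
    (hd : DifferentiableAt ℂ f ((c + r : ℝ) + t * Complex.I)) :
    HasDerivAt (fun x : ℝ => Real.log ‖f ((c + x : ℝ) + t * Complex.I)‖)
      (logDeriv f ((c + r : ℝ) + t * Complex.I)).re r := by
  set s : ℂ := (c + r : ℝ) + t * Complex.I with hs
  have e0 : (fun z : ℂ => (c : ℂ) + z + t * Complex.I) (r : ℂ) = s := by
    rw [hs]; push_cast; ring
  have h1 : HasDerivAt (fun z : ℂ => (c : ℂ) + z + t * Complex.I) 1 (r : ℂ) := by
    have := ((hasDerivAt_id (r : ℂ)).const_add (c : ℂ)).add_const (t * Complex.I)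
    simpa using this
  have h2 : HasDerivAt f (deriv f s) ((fun z : ℂ => (c : ℂ) + z + t * Complex.I) (r : ℂ)) := by
    rw [e0]; exact hd.hasDerivAt
  have h3 : HasDerivAt (fun z : ℂ => f ((c : ℂ) + z + t * Complex.I) / f s)
      (deriv f s * 1 / f s) (r : ℂ) := (h2.comp (r : ℂ) h1).div_const _
  have h4 : f ((c : ℂ) + r + t * Complex.I) / f s = 1 := by
    have : (c : ℂ) + r + t * Complex.I = s := e0
    rw [this, div_self h0]
  have h5 : HasDerivAt (fun z : ℂ => Complex.log (f ((c : ℂ) + z + t * Complex.I) / f s))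
      (deriv f s / f s) (r : ℂ) := by
    have := h3.clog (by rw [h4]; exact Complex.one_mem_slitPlane)
    rw [h4] at this
    simpa using this
  have h6 := h5.real_of_complex
  have h7 : HasDerivAt (fun x : ℝ =>
      (Complex.log (f ((c : ℂ) + x + t * Complex.I) / f s)).re + Real.log ‖f s‖)
      (deriv f s / f s).re r := h6.add_const _
  refine h7.congr_of_eventuallyEq ?_
  have hcont : ContinuousAt (fun x : ℝ => f ((c : ℂ) + (x : ℂ) + t * Complex.I)) r := by
    have h8 : ContinuousAt (fun z : ℂ => f ((c : ℂ) + z + t * Complex.I)) (r : ℂ) :=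
      (h2.comp (r : ℂ) h1).continuousAt
    exact ContinuousAt.comp (f := fun x : ℝ => (x : ℂ)) h8 Complex.continuous_ofReal.continuousAt
  have hne : ∀ᶠ x : ℝ in 𝓝 r, f ((c : ℂ) + (x : ℂ) + t * Complex.I) ≠ 0 := by
    refine hcont.eventually_ne ?_
    have : (c : ℂ) + r + t * Complex.I = s := e0
    rw [this]
    exact h0
  filter_upwards [hne] with x hx
  have e1 : (((c + x : ℝ) : ℂ) + t * Complex.I) = (c : ℂ) + x + t * Complex.I := by push_cast; ring
  rw [e1, Complex.log_re, norm_div, Real.log_div (norm_ne_zero_iff.mpr hx)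
    (norm_ne_zero_iff.mpr h0)]
  ring

/-- Integration of a bound for the derivative. -/
lemma abs_le_of_deriv3 {G G' : ℝ → ℝ} {δ r₀ α β : ℝ} (hδ : 0 < δ) (hr : δ ≤ r₀)
    (hG : ∀ x, δ ≤ x → x ≤ r₀ → HasDerivAt G (G' x) x)
    (hb : ∀ x, δ ≤ x → x ≤ r₀ → |G' x| ≤ α / x + β / Real.sqrt x) :
    |G r₀ - G δ| ≤ α * (Real.log r₀ - Real.log δ) + 2 * β * (Real.sqrt r₀ - Real.sqrt δ) := by
  have key := image_norm_le_of_norm_deriv_right_le_deriv_boundary' (a := δ) (b := r₀)
    (f := fun x => G x - G δ) (f' := G')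
    (B := fun x => α * (Real.log x - Real.log δ) + 2 * β * (Real.sqrt x - Real.sqrt δ))
    (B' := fun x => α / x + β / Real.sqrt x)
    (fun x hx => ((hG x hx.1 hx.2).sub_const _).continuousAt.continuousWithinAt)
    (fun x hx => ((hG x hx.1 hx.2.le).sub_const _).hasDerivWithinAt)
    (by simp) ?_ ?_ ?_ (x := r₀) ⟨hr, le_rfl⟩
  · simpa using key
  · intro x hx
    have hx0 : 0 < x := lt_of_lt_of_le hδ hx.1
    have h1 : ContinuousAt Real.log x := Real.continuousAt_log hx0.ne'
    have h2 : ContinuousAt Real.sqrt x := Real.continuous_sqrt.continuousAt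
    exact (((h1.sub continuousAt_const).const_mul _).add
      ((h2.sub continuousAt_const).const_mul _)).continuousWithinAt
  · intro x hx
    have hx0 : 0 < x := lt_of_lt_of_le hδ hx.1
    have h1 := ((Real.hasDerivAt_log hx0.ne').sub_const (Real.log δ)).const_mul α
    have h2 := ((Real.hasDerivAt_sqrt hx0.ne').sub_const (Real.sqrt δ)).const_mul (2 * β)
    refine ((h1.add h2).congr_deriv ?_).hasDerivWithinAt
    have : 0 < Real.sqrt x := Real.sqrt_pos.mpr hx0
    field_simp
  · intro x hx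
    rw [Real.norm_eq_abs]
    exact hb x hx.1 hx.2.le

end Pool.Agent.Lib.MP_bf61d2_nt.Artin.Ray
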