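import Mathlib

set_option autoImplicit false

/-!
LOCAL (MP_bf61d2_nt), module LAND: the lemma of Landau on the logarithmic derivative, one sided.
-/

namespace Pool.Agent.Lib.MP_bf61d2_nt.Artin.LD

open Metric Set

/-- The product of the factors `z - w`, `w` in a list. -/
noncomputable def pl (l : List ℂ) (z : ℂ) : ℂ := (l.map fun w => z - w).prod

lemma pl_nil (z : ℂ) : pl [] z = 1 := by simp [pl]

lemma pl_cons (w : ℂ) (l : List ℂ) (z : ℂ) : pl (w :: l) z = (z - w) * pl l z := by simp [pl]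

lemma differentiable_pl (l : List ℂ) : Differentiable ℂ (pl l) := by
  induction l with
  | nil =>
    have : pl [] = fun _ => 1 := by funext z; exact pl_nil z
    rw [this]
    exact differentiable_const _
  | cons w l ih =>
    have : pl (w :: l) = fun z => (z - w) * pl l z := by funext z; exact pl_cons w l z
    rw [this]
    exact (differentiable_id.sub_const w).mul ih

lemma pl_ne_zero {l : List ℂ} {z : ℂ} (h : ∀ w ∈ l, z ≠ w) : pl l z ≠ 0 := by
  induction l with
  | nil => simp [pl]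
  | cons w l ih =>
    rw [pl_cons]
    refine mul_ne_zero (sub_ne_zero.mpr (h w (by simp))) (ih fun w' hw' => h w' (by simp [hw']))

lemma logDeriv_pl {l : List ℂ} {z : ℂ} (h : ∀ w ∈ l, z ≠ w) :
    logDeriv (pl l) z = (l.map fun w => (z - w)⁻¹).sum := by
  induction l with
  | nil =>
    have : pl [] = fun _ => 1 := by funext z; exact pl_nil z
    rw [this, logDeriv_const]
    simp
  | cons w l ih =>
    have e : pl (w :: l) = fun z => (z - w) * pl l z := by funext z; exact pl_cons w l z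
    have h1 : z - w ≠ 0 := sub_ne_zero.mpr (h w (by simp))
    have h2 : pl l z ≠ 0 := pl_ne_zero fun w' hw' => h w' (by simp [hw'])
    rw [e, logDeriv_mul z h1 h2 (by fun_prop) (differentiable_pl l z),
      ih fun w' hw' => h w' (by simp [hw'])]
    simp only [List.map_cons, List.sum_cons]
    congr 1
    rw [logDeriv_apply]
    simp

/-- On the sphere the factors are at least twice as large as at the center. -/
lemma norm_pl_le {c : ℂ} {R : ℝ} {l : List ℂ} (hl : ∀ w ∈ l, ‖w - c‖ ≤ R / 3) {z : ℂ}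
    (hz : ‖z - c‖ = R) : 2 ^ l.length * ‖pl l c‖ ≤ ‖pl l z‖ := by
  induction l with
  | nil => simp [pl]
  | cons w l ih =>
    rw [pl_cons, pl_cons, norm_mul, norm_mul, List.length_cons, pow_succ]
    have h1 : ‖w - c‖ ≤ R / 3 := hl w (by simp)
    have h2 : 2 * ‖c - w‖ ≤ ‖z - w‖ := by
      have h3 : ‖z - c‖ ≤ ‖z - w‖ + ‖w - c‖ := norm_sub_le_norm_sub_add_norm_sub z w c
      rw [norm_sub_rev c w]
      linarith
    have h3 := ih fun w' hw' => hl w' (by simp [hw'])
    calc 2 ^ l.length * 2 * (‖c - w‖ * ‖pl l c‖) = (2 * ‖c - w‖) * (2 ^ l.length * ‖pl l c‖) := by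
          ring
      _ ≤ ‖z - w‖ * ‖pl l z‖ := mul_le_mul h2 h3 (by positivity) (norm_nonneg _)

/-- `f` is a polynomial with zeros in the small disc times a function differentiable on `U`. -/
def Fac (f : ℂ → ℂ) (U : Set ℂ) (c : ℂ) (R : ℝ) (l : List ℂ) (g : ℂ → ℂ) : Prop :=
  (∀ w ∈ l, ‖w - c‖ ≤ R / 3) ∧ DifferentiableOn ℂ g U ∧ ∀ z ∈ U, f z = pl l z * g z

/-- The maximum principle for the second factor. -/
lemma norm_fac_le {f : ℂ → ℂ} {U : Set ℂ} {c : ℂ} {R M : ℝ} (hR : 0 < R)
    (hU : closedBall c R ⊆ U) (hM : ∀ z ∈ sphere c R, ‖f z‖ ≤ Real.exp M * ‖f c‖)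
    (hf : f c ≠ 0) {l : List ℂ} {g : ℂ → ℂ} (h : Fac f U c R l g) :
    ∀ z ∈ closedBall c R, 2 ^ l.length * ‖g z‖ ≤ Real.exp M * ‖g c‖ := by
  obtain ⟨hl, hg, hfg⟩ := h
  have hc : c ∈ U := hU (mem_closedBall_self hR.le)
  have hfc := hfg c hc
  have hpc : pl l c ≠ 0 := fun h0 => hf (by rw [hfc, h0, zero_mul])
  have hpc0 : 0 < ‖pl l c‖ := norm_pos_iff.mpr hpc
  have hsp : ∀ z ∈ sphere c R, ‖g z‖ ≤ Real.exp M * ‖g c‖ / 2 ^ l.length := by
    intro z hz
    have hz' : ‖z - c‖ = R := by rwa [← mem_sphere_iff_norm]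
    have h1 := norm_pl_le hl hz'
    have h2 := hM z hz
    rw [hfg z (hU (sphere_subset_closedBall hz)), hfc, norm_mul, norm_mul] at h2
    have h3 : 0 < ‖pl l z‖ := lt_of_lt_of_le (by positivity) h1
    rw [le_div_iff₀ (by positivity)]
    have h4 : ‖g z‖ * (2 ^ l.length * ‖pl l c‖) ≤ ‖pl l z‖ * ‖g z‖ := by
      rw [mul_comm]
      exact mul_le_mul_of_nonneg_right h1 (norm_nonneg _)
    have h5 : (‖g z‖ * 2 ^ l.length) * ‖pl l c‖ ≤ (Real.exp M * ‖g c‖) * ‖pl l c‖ := by
      calc (‖g z‖ * 2 ^ l.length) * ‖pl l c‖ = ‖g z‖ * (2 ^ l.length * ‖pl l c‖) := by ring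
        _ ≤ ‖pl l z‖ * ‖g z‖ := h4
        _ ≤ Real.exp M * (‖pl l c‖ * ‖g c‖) := h2
        _ = _ := by ring
    exact le_of_mul_le_mul_right h5 hpc0
  intro z hz
  have hd : DiffContOnCl ℂ g (ball c R) := by
    refine ⟨hg.mono (ball_subset_closedBall.trans hU), ?_⟩
    rw [closure_ball c hR.ne']
    exact (hg.mono hU).continuousOn
  have h6 : ‖g z‖ ≤ Real.exp M * ‖g c‖ / 2 ^ l.length := by
    refine Complex.norm_le_of_forall_mem_frontier_norm_le (isBounded_ball (x := c) (r := R)) hd ?_ ?_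
    · intro w hw
      rw [frontier_ball c hR.ne'] at hw
      exact hsp w hw
    · rwa [closure_ball c hR.ne']
  rw [le_div_iff₀ (by positivity)] at h6
  linarith

/-- All the zeros in the small disc can be split off. -/
theorem exists_fac {f : ℂ → ℂ} {U : Set ℂ} (hUo : IsOpen U) {c : ℂ} {R M : ℝ} (hR : 0 < R)
    (hU : closedBall c R ⊆ U) (hd : DifferentiableOn ℂ f U)
    (hM : ∀ z ∈ sphere c R, ‖f z‖ ≤ Real.exp M * ‖f c‖) (hf : f c ≠ 0) :
    ∃ (l : List ℂ) (g : ℂ → ℂ), Fac f U c R l g ∧ ∀ z, ‖z - c‖ ≤ R / 3 → g z ≠ 0 := by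
  classical
  have hc : c ∈ U := hU (mem_closedBall_self hR.le)
  obtain ⟨N, hN⟩ := pow_unbounded_of_one_lt (Real.exp M) (by norm_num : (1 : ℝ) < 2)
  have hbd : ∀ (l : List ℂ) (g : ℂ → ℂ), Fac f U c R l g → l.length ≤ N := by
    intro l g h
    have h1 := norm_fac_le hR hU hM hf h c (mem_closedBall_self hR.le)
    have h2 : g c ≠ 0 := fun h0 => hf (by rw [h.2.2 c hc, h0, mul_zero])
    have h3 : (2 : ℝ) ^ l.length ≤ Real.exp M := le_of_mul_le_mul_right h1 (norm_pos_iff.mpr h2)
    by_contra h4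
    push Not at h4
    have h5 : (2 : ℝ) ^ N ≤ 2 ^ l.length := pow_le_pow_right₀ (by norm_num) h4.le
    linarith
  set p : ℕ → Prop := fun n => ∃ (l : List ℂ) (g : ℂ → ℂ), Fac f U c R l g ∧ l.length = n with hp
  have h0 : p 0 := ⟨[], f, ⟨by simp, hd, fun z _ => by rw [pl_nil, one_mul]⟩, rfl⟩
  have hgr : p (Nat.findGreatest p N) := Nat.findGreatest_spec (Nat.zero_le N) h0
  obtain ⟨l, g, hlg, hlen⟩ := hgr
  refine ⟨l, g, hlg, fun z hz hgz => ?_⟩
  have hzU : z ∈ U := hU (by rw [mem_closedBall, dist_eq_norm]; linarith)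
  have hnew : Fac f U c R (z :: l) (dslope g z) := by
    refine ⟨fun w hw => ?_, ?_, fun w hw => ?_⟩
    · rcases List.mem_cons.mp hw with rfl | h
      · exact hz
      · exact hlg.1 w h
    · exact (Complex.differentiableOn_dslope (hUo.mem_nhds hzU)).mpr hlg.2.1
    · rw [hlg.2.2 w hw, pl_cons]
      have h1 : (w - z) * dslope g z w = g w := by
        have := sub_smul_dslope g z w
        rw [smul_eq_mul, hgz, sub_zero] at this
        exact this
      rw [← h1]
      ring
  have h1 := hbd _ _ hnew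
  have h2 : p (z :: l).length := ⟨_, _, hnew, rfl⟩
  have h3 := Nat.le_findGreatest h1 h2
  rw [List.length_cons] at h3
  omega

/-- The logarithmic derivative of a function without zeros in a disc. -/
theorem norm_logDeriv_le {g : ℂ → ℂ} {U : Set ℂ} (hUo : IsOpen U) {c : ℂ} {R M : ℝ} (hR : 0 < R)
    (hM0 : 0 < M) (hU : closedBall c (R / 3) ⊆ U) (hd : DifferentiableOn ℂ g U)
    (hg : ∀ z, ‖z - c‖ ≤ R / 3 → g z ≠ 0)
    (hM : ∀ z, ‖z - c‖ ≤ R / 3 → ‖g z‖ ≤ Real.exp M * ‖g c‖) {s : ℂ} (hs : ‖s - c‖ ≤ R / 6) :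
    ‖logDeriv g s‖ ≤ 72 * M / R := by
  have hR3 : 0 < R / 3 := by positivity
  have hball : ball c (R / 3) ⊆ U := ball_subset_closedBall.trans hU
  have hgc : g c ≠ 0 := hg c (by simp; positivity)
  have hdl : DifferentiableOn ℂ (fun z => deriv g z / g z) (ball c (R / 3)) := by
    refine DifferentiableOn.div ((hd.deriv hUo).mono hball) (hd.mono hball) fun z hz => hg z ?_
    rw [mem_ball, dist_eq_norm] at hz
    exact hz.le
  obtain ⟨h, hhc, hh⟩ := (hdl.isExactOn_ball).with_val_at c 0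
  have hhd : DifferentiableOn ℂ h (ball c (R / 3)) := fun z hz =>
    (hh z hz).differentiableAt.differentiableWithinAt
  -- the exponential
  have hexp : ∀ z ∈ ball c (R / 3), g z = g c * Complex.exp (h z) := by
    have h1 : ∀ z ∈ ball c (R / 3), HasDerivAt (fun z => g z * Complex.exp (-h z)) 0 z := by
      intro z hz
      have hgz : g z ≠ 0 := hg z (by rw [mem_ball, dist_eq_norm] at hz; exact hz.le)
      have h2 : HasDerivAt g (deriv g z) z :=
        (hd.differentiableAt (hUo.mem_nhds (hball hz))).hasDerivAt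
      have h3 : HasDerivAt (fun z => g z * Complex.exp (-h z)) (deriv g z * Complex.exp (-h z) +
          g z * (Complex.exp (-h z) * -(deriv g z / g z))) z := h2.mul ((hh z hz).neg.cexp)
      have e : deriv g z * Complex.exp (-h z) +
          g z * (Complex.exp (-h z) * -(deriv g z / g z)) = 0 := by
        field_simp
        ring
      rw [e] at h3
      exact h3
    intro z hz
    have h2 : IsPreconnected (ball c (R / 3)) := (convex_ball c (R / 3)).isPreconnected
    have hcb : c ∈ ball c (R / 3) := mem_ball_self hR3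
    have h3 := (isOpen_ball (x := c) (ε := R / 3)).is_const_of_deriv_eq_zero h2
      (fun w hw => (h1 w hw).differentiableAt.differentiableWithinAt)
      (fun w hw => (h1 w hw).deriv) hz hcb
    simp only [hhc, neg_zero, Complex.exp_zero, mul_one] at h3
    rw [← h3, mul_assoc, ← Complex.exp_add, neg_add_cancel, Complex.exp_zero, mul_one]
  -- the bound for the real part
  have hre : ∀ z ∈ ball c (R / 3), (h z).re ≤ M := by
    intro z hz
    have h1 := hM z (by rw [mem_ball, dist_eq_norm] at hz; exact hz.le)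
    rw [hexp z hz, norm_mul, Complex.norm_exp, mul_comm] at h1
    have h2 : Real.exp (h z).re ≤ Real.exp M := le_of_mul_le_mul_right h1 (norm_pos_iff.mpr hgc)
    exact Real.exp_le_exp.mp h2
  -- Borel and Caratheodory
  have hbc : ∀ z, ‖z - c‖ ≤ R / 4 → ‖h z‖ ≤ 6 * M := by
    intro z hz
    have hmap : ∀ w ∈ ball (0 : ℂ) (R / 3), w + c ∈ ball c (R / 3) := by
      intro w hw
      rw [mem_ball_zero_iff] at hw
      rw [mem_ball, dist_eq_norm, add_sub_cancel_right]
      exact hw
    have h1 : DifferentiableOn ℂ (fun w => h (w + c)) (ball 0 (R / 3)) := by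
      refine hhd.comp (differentiable_id.add_const c).differentiableOn fun w hw => hmap w hw
    have h2 := Complex.borelCaratheodory_zero (f := fun w => h (w + c)) (z := z - c) hM0 h1
      (fun w hw => hre _ (hmap w hw)) hR3 (by rw [mem_ball_zero_iff]; linarith)
      (by simp only [zero_add]; exact hhc)
    simp only [sub_add_cancel] at h2
    refine h2.trans ?_
    rw [div_le_iff₀ (by linarith)]
    nlinarith [norm_nonneg (z - c)]
  -- Cauchy
  have hsb : s ∈ ball c (R / 3) := by
    rw [mem_ball, dist_eq_norm]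
    linarith
  have h4 : ‖deriv h s‖ ≤ 6 * M / (R / 12) := by
    refine Complex.norm_deriv_le_of_forall_mem_sphere_norm_le (by positivity) ?_ ?_
    · refine ⟨hhd.mono fun z hz => ?_, ?_⟩
      · rw [mem_ball, dist_eq_norm] at hz ⊢
        have := norm_sub_le_norm_sub_add_norm_sub z s c
        linarith
      · rw [closure_ball s (by positivity)]
        refine hhd.continuousOn.mono fun z hz => ?_
        rw [mem_closedBall, dist_eq_norm] at hz
        rw [mem_ball, dist_eq_norm]
        have := norm_sub_le_norm_sub_add_norm_sub z s c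
        linarith
    · intro z hz
      rw [mem_sphere_iff_norm] at hz
      refine hbc z ?_
      have := norm_sub_le_norm_sub_add_norm_sub z s c
      linarith
  rw [(hh s hsb).deriv] at h4
  rw [logDeriv_apply]
  refine h4.trans (le_of_eq ?_)
  field_simp
  norm_num

/-- **The lemma of Landau**, one sided. -/
theorem landau {f : ℂ → ℂ} {U : Set ℂ} (hUo : IsOpen U) {c : ℂ} {R M : ℝ} (hR : 0 < R)
    (hM0 : 0 < M) (hU : closedBall c R ⊆ U) (hd : DifferentiableOn ℂ f U)
    (hM : ∀ z ∈ sphere c R, ‖f z‖ ≤ Real.exp M * ‖f c‖) (hf : f c ≠ 0) {s : ℂ}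
    (hs : ‖s - c‖ ≤ R / 6) (hz : ∀ z ∈ U, s.re ≤ z.re → f z ≠ 0) :
    -(logDeriv f s).re ≤ 72 * M / R ∧
      ∀ ρ, ‖ρ - c‖ ≤ R / 3 → f ρ = 0 → -(logDeriv f s).re ≤ 72 * M / R - ((s - ρ)⁻¹).re := by
  obtain ⟨l, g, hfac, hg⟩ := exists_fac hUo hR hU hd hM hf
  have hb3 : ∀ z, ‖z - c‖ ≤ R / 3 → z ∈ U := fun z h =>
    hU (by rw [mem_closedBall, dist_eq_norm]; linarith)
  have hgb := norm_fac_le hR hU hM hf hfac
  obtain ⟨hl, hgd, hfg⟩ := hfac
  have hsU : s ∈ U := hb3 s (by linarith)
  have hfs : f s ≠ 0 := hz s hsU le_rfl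
  have hlre : ∀ w ∈ l, w.re < s.re := by
    intro w hw
    by_contra h
    push Not at h
    have hwU := hb3 w (hl w hw)
    refine hz w hwU h ?_
    rw [hfg w hwU]
    have : pl l w = 0 := by
      rw [pl, List.prod_eq_zero_iff]
      exact List.mem_map.mpr ⟨w, hw, sub_self w⟩
    rw [this, zero_mul]
  have hsl : ∀ w ∈ l, s ≠ w := fun w hw h => by
    have := hlre w hw
    rw [h] at this
    exact lt_irrefl _ this
  have h1 : ‖logDeriv g s‖ ≤ 72 * M / R := by
    refine norm_logDeriv_le hUo hR hM0 (fun z hz => hb3 z ?_) hgd hg (fun z hz => ?_) hs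
    · rwa [mem_closedBall, dist_eq_norm] at hz
    · have h2 := hgb z (by rw [mem_closedBall, dist_eq_norm]; linarith)
      refine le_trans ?_ h2
      have h3 : (1 : ℝ) ≤ 2 ^ l.length := one_le_pow₀ (by norm_num)
      exact le_mul_of_one_le_left (norm_nonneg _) h3
  have h2 : logDeriv f s = (l.map fun w => (s - w)⁻¹).sum + logDeriv g s := by
    have e1 : logDeriv f s = logDeriv (fun z => pl l z * g z) s := by
      have e2 : f =ᶠ[nhds s] fun z => pl l z * g z := by
        filter_upwards [hUo.mem_nhds hsU] with z hz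
        exact hfg z hz
      rw [logDeriv_apply, logDeriv_apply, e2.deriv_eq, e2.eq_of_nhds]
    rw [e1, logDeriv_mul s (pl_ne_zero hsl) (hg s (by linarith)) (differentiable_pl l s)
      (hgd.differentiableAt (hUo.mem_nhds hsU)), logDeriv_pl hsl]
  have hre : ∀ w ∈ l, 0 ≤ ((s - w)⁻¹).re := by
    intro w hw
    rw [Complex.inv_re]
    have := hlre w hw
    have h3 : 0 ≤ (s - w).re := by rw [Complex.sub_re]; linarith
    exact div_nonneg h3 (Complex.normSq_nonneg _)
  have hsum : ∀ l' : List ℂ, ((l'.map fun w => (s - w)⁻¹).sum).re =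
      (l'.map fun w => ((s - w)⁻¹).re).sum := by
    intro l'
    induction l' with
    | nil => simp
    | cons w l' ih => simp [ih]
  have h3 : -(logDeriv g s).re ≤ 72 * M / R :=
    (neg_le_abs _).trans ((Complex.abs_re_le_norm _).trans h1)
  have h4 : 0 ≤ (l.map fun w => ((s - w)⁻¹).re).sum :=
    List.sum_nonneg fun y hy => by
      obtain ⟨w, hw, rfl⟩ := List.mem_map.mp hy
      exact hre w hw
  refine ⟨?_, fun ρ hρ hρ0 => ?_⟩
  · rw [h2, Complex.add_re, hsum]
    linarith
  · have hmem : ρ ∈ l := by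
      by_contra hno
      have h5 := hfg ρ (hb3 ρ hρ)
      rw [hρ0] at h5
      exact mul_ne_zero (pl_ne_zero fun w hw h => hno (by rw [h]; exact hw)) (hg ρ hρ) h5.symm
    have h5 : ((s - ρ)⁻¹).re ≤ (l.map fun w => ((s - w)⁻¹).re).sum := by
      refine List.single_le_sum (fun y hy => ?_) _ (List.mem_map.mpr ⟨ρ, hmem, rfl⟩)
      obtain ⟨w, hw, rfl⟩ := List.mem_map.mp hy
      exact hre w hw
    rw [h2, Complex.add_re, hsum]
    linarith

end Pool.Agent.Lib.MP_bf61d2_nt.Artin.LD
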