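import Mathlib
import Pool.Agent.Lib.MP_bf61d2_nt.Trim.Artin.Defs63
import Pool.Agent.Lib.MP_bf61d2_nt.Trim.Artin.H.DefsH
import Pool.Agent.Lib.MP_bf61d2_nt.Trim.Artin.H.StmtsH
import Pool.Agent.Lib.MP_bf61d2_nt.Trim.Artin.L.LAND63
import Pool.Agent.Lib.MP_bf61d2_nt.Trim.Artin.L.StmtsL63
import Pool.Agent.Lib.MP_bf61d2_nt.Trim.Artin.R.DefsR
import Pool.Agent.Lib.MP_bf61d2_nt.Trim.Artin.R.EUL52
import Pool.Agent.Lib.MP_bf61d2_nt.Trim.Places
import Pool.Agent.Lib.MP_bf61d2_nt.Trim.PrimeSum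

set_option autoImplicit false

/-!
LOCAL (MP_bf61d2_nt), module ONEL: the one sided bound for the prime sums of a Hecke character, from
the lemma of Landau.
-/

namespace NumberField
end NumberField

namespace Pool.Agent.Lib.MP_bf61d2_nt.Zeta
end Pool.Agent.Lib.MP_bf61d2_nt.Zeta

namespace Pool.Agent.Lib.MP_bf61d2_nt.Artin.Ray

open NumberField IsDedekindDomain Filter Topology Metric

open Pool.Agent.Lib.MP_bf61d2_nt.Zeta

open scoped Classical

universe u

variable {K : Type u} [Field K] [NumberField K]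

lemma norm_WL_le {x : ℝ} (hx : 0 < x) {f : HeightOneSpectrum (𝓞 K) → ℂ} (hf : ∀ v, ‖f v‖ ≤ 1) :
    ‖WL x f‖ ≤ ∑' v : HeightOneSpectrum (𝓞 K), wl x v := by
  rw [WL]
  refine tsum_of_norm_bounded (summable_wl hx).hasSum fun v => ?_
  rw [norm_mul, Complex.norm_real, Real.norm_eq_abs, abs_of_nonneg (wl_nonneg x v)]
  exact mul_le_of_le_one_right (wl_nonneg x v) (hf v)

lemma norm_ph' (t : ℝ) (n : ℕ) : ‖ph t n‖ = 1 := by
  rw [ph, Complex.norm_exp_ofReal_mul_I]

lemma wl_anti {x y : ℝ} (h : x ≤ y) (v : HeightOneSpectrum (𝓞 K)) : wl y v ≤ wl x v := by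
  rw [wl, wl]
  refine mul_le_mul_of_nonneg_right ?_ (log_nm_pos v).le
  rw [wp, wp]
  exact Real.rpow_le_rpow_of_exponent_le (by exact_mod_cast (one_lt_nm v).le) (by linarith)

lemma norm_PSL_le {ψ : Ideal (𝓞 K) →*₀ ℂ} (hψ : ∀ I, ‖ψ I‖ ≤ 1) {x y : ℝ} (hx : 0 < x)
    (hxy : x ≤ y) (u : ℝ) : ‖PSL ψ y u‖ ≤ ∑' v : HeightOneSpectrum (𝓞 K), wl x v := by
  refine (norm_WL_le (by linarith) fun v => ?_).trans ?_
  · rw [norm_mul, norm_ph', mul_one]
    exact hψ _
  · exact (summable_wl (by linarith)).tsum_le_tsum (fun v => wl_anti hxy v) (summable_wl hx)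

/-- The Dirichlet series is bounded from below away from `1`. -/
lemma norm_LI_ge (ψ : Ideal (𝓞 K) →*₀ ℂ) (hψ : ∀ I, ‖ψ I‖ ≤ 1) {s : ℂ} (hs : 1 < s.re) :
    Real.exp (-(∑' v : HeightOneSpectrum (𝓞 K), wp s.re v + sqC K)) ≤
      ‖LI (ψ : Ideal (𝓞 K) → ℂ) s‖ := by
  obtain ⟨Λ, -, h⟩ := stEUL_of K ψ hψ
  obtain ⟨h1, h2⟩ := h s hs
  rw [← h1, Complex.norm_exp]
  refine Real.exp_le_exp.mpr ?_
  have h3 : ‖SC (K := K) s.re (fun v => ψ v.asIdeal * ph s.im (nm v))‖ ≤
      ∑' v : HeightOneSpectrum (𝓞 K), wp s.re v := by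
    rw [SC]
    refine tsum_of_norm_bounded (summable_wp hs).hasSum fun v => ?_
    rw [norm_mul, Complex.norm_real, Real.norm_eq_abs, abs_of_pos (wp_pos _ v), norm_mul, norm_ph',
      mul_one]
    exact mul_le_of_le_one_right (wp_pos _ v).le (hψ _)
  have h4 : ‖Λ s‖ ≤ sqC K + ‖SC (K := K) s.re (fun v => ψ v.asIdeal * ph s.im (nm v))‖ := by
    have := norm_le_norm_sub_add (Λ s) (SC (K := K) s.re (fun v => ψ v.asIdeal * ph s.im (nm v)))
    linarith
  have h5 := (abs_le.mp (Complex.abs_re_le_norm (Λ s))).1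
  linarith

/-- A bounded Dirichlet series near `1`: the numerator vanishes. -/
lemma H_one_eq_zero {ψ : Ideal (𝓞 K) →*₀ ℂ} (hBD : BD ψ) {H : ℂ → ℂ} {η : ℝ} (hη : 0 < η)
    (hd : DifferentiableOn ℂ H {s | 1 - η < s.re})
    (heq : ∀ s : ℂ, 1 < s.re → H s = (s - 1) * LI (ψ : Ideal (𝓞 K) → ℂ) s) : H 1 = 0 := by
  obtain ⟨B, hB'⟩ := hBD
  have hcont : ContinuousAt H 1 := by
    refine (hd.differentiableAt ((isOpen_lt continuous_const
      Complex.continuous_re).mem_nhds ?_)).continuousAt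
    show 1 - η < (1 : ℂ).re
    rw [Complex.one_re]
    linarith
  have h1 : Tendsto (fun y : ℝ => H ((1 + y : ℝ) : ℂ)) (𝓝[>] 0) (𝓝 (H 1)) := by
    have h2 : Tendsto (fun y : ℝ => ((1 + y : ℝ) : ℂ)) (𝓝 0) (𝓝 ((1 + (0 : ℝ) : ℝ) : ℂ)) :=
      Continuous.tendsto (by fun_prop) 0
    rw [add_zero, Complex.ofReal_one] at h2
    exact hcont.tendsto.comp (h2.mono_left nhdsWithin_le_nhds)
  have h3 : Tendsto (fun y : ℝ => H ((1 + y : ℝ) : ℂ)) (𝓝[>] 0) (𝓝 0) := by
    rw [tendsto_zero_iff_norm_tendsto_zero]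
    have h4 : Tendsto (fun y : ℝ => y * |B|) (𝓝[>] 0) (𝓝 0) := by
      have h5 : Tendsto (fun y : ℝ => y * |B|) (𝓝 0) (𝓝 (0 * |B|)) :=
        Continuous.tendsto (by fun_prop) 0
      rw [zero_mul] at h5
      exact h5.mono_left nhdsWithin_le_nhds
    refine squeeze_zero' (Eventually.of_forall fun _ => norm_nonneg _) ?_ h4
    filter_upwards [Ioc_mem_nhdsGT (zero_lt_one' ℝ)] with y hy
    rw [heq _ (by rw [Complex.ofReal_re]; linarith [hy.1]), norm_mul]
    have e : ((1 + y : ℝ) : ℂ) - 1 = (y : ℂ) := by push_cast; ring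
    rw [e, Complex.norm_real, Real.norm_eq_abs, abs_of_pos hy.1]
    exact mul_le_mul_of_nonneg_left ((hB' y hy.1 hy.2).trans (le_abs_self B)) hy.1.le
  exact tendsto_nhds_unique h1 h3

/-- **LOCAL, module ONEL.** -/
theorem stONEL_of (K : Type u) [Field K] [NumberField K] (hB : StBASH K) (hG : StGROWH K)
    (hP : StPSL K) : StONEL K := by
  obtain ⟨η, A, k, hη, hη1, hA, hg⟩ := hG
  obtain ⟨C₁, hC₁, hPSL⟩ := hP
  set R : ℝ := η / 2 with hR
  have hR0 : 0 < R := by positivity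
  set B₀ : ℝ := ∑' v : HeightOneSpectrum (𝓞 K), wp (1 + R / 8) v + |sqC K| with hB₀
  have hB₀0 : 0 ≤ B₀ := by
    have : 0 ≤ ∑' v : HeightOneSpectrum (𝓞 K), wp (1 + R / 8) v := tsum_nonneg fun v =>
      (wp_pos _ v).le
    positivity
  set B₁ : ℝ := ∑' v : HeightOneSpectrum (𝓞 K), wl (R / 4) v with hB₁
  have hB₁0 : 0 ≤ B₁ := tsum_nonneg fun v => wl_nonneg _ v
  have hlA : 0 ≤ Real.log A := Real.log_nonneg hA
  have hlR : 0 < Real.log (8 / R) := by
    apply Real.log_pos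
    rw [lt_div_iff₀ hR0]
    linarith
  set T : ℝ := Real.log A + k + B₀ + Real.log (8 / R) with hT
  have hk0 : (0 : ℝ) ≤ k := Nat.cast_nonneg k
  have hT0 : 0 < T := by rw [hT]; linarith
  refine ⟨72 * T / R + 9 / R + C₁ + B₁, by positivity, fun 𝔪 Z ψ hk x u hx hx1 => ?_⟩
  obtain ⟨h𝔪, α, β, hψ, hle⟩ := hk
  have hψ1 := (hB 𝔪 h𝔪 α β ψ hψ).1
  obtain ⟨H, hd, heq, hb⟩ := hg 𝔪 h𝔪 α β ψ hψ
  have hm1 : (1 : ℝ) ≤ Ideal.absNorm 𝔪 := by
    have : Ideal.absNorm 𝔪 ≠ 0 := by
      rw [Ne, Ideal.absNorm_eq_zero_iff]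
      exact h𝔪
    exact_mod_cast Nat.one_le_iff_ne_zero.mpr this
  have hsz : 1 ≤ sz α β := by
    rw [sz]
    have h1 : 0 ≤ ∑ w : {w : InfinitePlace K // w.IsComplex}, |(α w : ℝ)| :=
      Finset.sum_nonneg fun _ _ => abs_nonneg _
    have h2 : 0 ≤ ∑ w : InfinitePlace K, |β w| := Finset.sum_nonneg fun _ _ => abs_nonneg _
    linarith
  have hZ1 : (1 : ℝ) ≤ Z := (one_le_mul_of_one_le_of_one_le hm1 hsz).trans hle
  have hu0 := abs_nonneg u
  set Λ : ℝ := Real.log (Z * (|u| + 20)) with hΛ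
  have hZu20 : (20 : ℝ) ≤ Z * (|u| + 20) :=
    (show (20 : ℝ) ≤ |u| + 20 by linarith).trans
      (le_mul_of_one_le_left (show (0 : ℝ) ≤ |u| + 20 by linarith) hZ1)
  have hZu : (1 : ℝ) ≤ Z * (|u| + 20) := le_trans (by norm_num) hZu20
  have hZu0 : (0 : ℝ) < Z * (|u| + 20) := by linarith
  have hΛ1 : 1 ≤ Λ := by
    rw [hΛ, Real.le_log_iff_exp_le hZu0]
    have := Real.exp_one_lt_d9
    linarith
  have hxu : 0 ≤ x / (x ^ 2 + u ^ 2) := by positivity
  have hfin : ∀ y : ℝ, y ≤ 72 * T / R * Λ + 9 / R + C₁ + B₁ →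
      y ≤ (72 * T / R + 9 / R + C₁ + B₁) * Λ := by
    intro y hy
    have h1 : 0 ≤ 9 / R := by positivity
    have h2 : 9 / R + C₁ + B₁ ≤ (9 / R + C₁ + B₁) * Λ :=
      le_mul_of_one_le_right (add_nonneg (add_nonneg h1 hC₁) hB₁0) hΛ1
    have h3 : (72 * T / R + 9 / R + C₁ + B₁) * Λ =
        72 * T / R * Λ + (9 / R + C₁ + B₁) * Λ := by ring
    rw [h3]
    exact hy.trans (by linarith only [h2])
  rcases lt_or_ge (R / 4) x with hxR | hxR
  · -- far from the edge
    have h1 := norm_PSL_le (K := K) hψ1 (x := R / 4) (by positivity) hxR.le u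
    have h2 : (PSL ψ x u).re ≤ B₁ := (Complex.re_le_norm _).trans h1
    have h3 : 0 ≤ 72 * T / R * Λ := by positivity
    have h4 : 0 ≤ 9 / R := by positivity
    have h5 := hfin _ (show (PSL ψ x u).re ≤ 72 * T / R * Λ + 9 / R + C₁ + B₁ by linarith)
    exact ⟨by linarith, fun _ => h5⟩
  · set c : ℂ := ((1 + R / 8 : ℝ) : ℂ) + u * Complex.I with hc
    set s : ℂ := ((1 + x : ℝ) : ℂ) + u * Complex.I with hs
    have hcre : c.re = 1 + R / 8 := by simp [hc]
    have hcim : c.im = u := by simp [hc]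
    have hsre : s.re = 1 + x := by simp [hs]
    have hsim : s.im = u := by simp [hs]
    have hUo : IsOpen {s : ℂ | 1 - η < s.re} := isOpen_lt continuous_const Complex.continuous_re
    have hball : ∀ z ∈ closedBall c R, 1 - η < z.re ∧ z.re ≤ 2 ∧ |z.im| ≤ |u| + 1 := by
      intro z hz
      rw [mem_closedBall, dist_eq_norm] at hz
      have h1 := (abs_le.mp ((Complex.abs_re_le_norm _).trans hz))
      have h2 := (abs_le.mp ((Complex.abs_im_le_norm _).trans hz))
      rw [Complex.sub_re, hcre] at h1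
      rw [Complex.sub_im, hcim] at h2
      refine ⟨by linarith [h1.1], by linarith [h1.2], ?_⟩
      rw [abs_le]
      have h3 := abs_le.mp (le_refl |u|)
      constructor
      · linarith [h2.1, neg_abs_le u]
      · linarith [h2.2, le_abs_self u]
    have hLIc := norm_LI_ge ψ hψ1 (s := c) (by rw [hcre]; linarith)
    rw [hcre] at hLIc
    have hHc : R / 8 * Real.exp (-B₀) ≤ ‖H c‖ := by
      rw [heq c (by rw [hcre]; linarith), norm_mul]
      have h1 : R / 8 ≤ ‖c - 1‖ := by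
        have h2 := Complex.abs_re_le_norm (c - 1)
        rw [Complex.sub_re, hcre, Complex.one_re] at h2
        rwa [show (1 + R / 8 - 1 : ℝ) = R / 8 by ring, abs_of_pos (by positivity)] at h2
      have h3 : Real.exp (-B₀) ≤ ‖LI (ψ : Ideal (𝓞 K) → ℂ) c‖ := by
        refine le_trans (Real.exp_le_exp.mpr ?_) hLIc
        have := le_abs_self (sqC K)
        linarith
      exact mul_le_mul h1 h3 (Real.exp_pos _).le (norm_nonneg _)
    have hHc0 : H c ≠ 0 := by
      rw [← norm_pos_iff]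
      exact lt_of_lt_of_le (by positivity) hHc
    set M : ℝ := Real.log A + k * Λ + B₀ + Real.log (8 / R) with hM
    have hM0 : 0 < M := by
      have : 0 ≤ (k : ℝ) * Λ := by positivity
      rw [hM]; linarith
    have hMT : M ≤ T * Λ := by
      have m1 : Real.log A ≤ Real.log A * Λ := le_mul_of_one_le_right hlA hΛ1
      have m2 : B₀ ≤ B₀ * Λ := le_mul_of_one_le_right hB₀0 hΛ1
      have m3 : Real.log (8 / R) ≤ Real.log (8 / R) * Λ := le_mul_of_one_le_right hlR.le hΛ1
      have m4 : (Real.log A + k + B₀ + Real.log (8 / R)) * Λ =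
          Real.log A * Λ + k * Λ + B₀ * Λ + Real.log (8 / R) * Λ := by ring
      rw [hM, hT, m4]
      linarith only [m1, m2, m3]
    have hHb : ∀ z ∈ sphere c R, ‖H z‖ ≤ Real.exp M * ‖H c‖ := by
      intro z hz
      obtain ⟨h1, h2, h3⟩ := hball z (sphere_subset_closedBall hz)
      refine (hb z h1 h2).trans ?_
      have h4 : (Ideal.absNorm 𝔪 : ℝ) * (sz α β * (1 + |z.im|)) ≤ Z * (|u| + 20) := by
        rw [← mul_assoc]
        exact mul_le_mul hle (by linarith) (by positivity) (by positivity)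
      have h5 : A * ((Ideal.absNorm 𝔪 : ℝ) * (sz α β * (1 + |z.im|))) ^ k ≤
          A * (Z * (|u| + 20)) ^ k :=
        mul_le_mul_of_nonneg_left (pow_le_pow_left₀ (by positivity) h4 k) (by linarith)
      refine h5.trans ?_
      have e1 : Real.exp M * (R / 8 * Real.exp (-B₀)) = A * (Z * (|u| + 20)) ^ k := by
        have e2 : Real.exp (k * Λ) = (Z * (|u| + 20)) ^ k := by
          rw [Real.exp_nat_mul, hΛ, Real.exp_log hZu0]
        rw [hM, Real.exp_add, Real.exp_add, Real.exp_add, e2, Real.exp_log (by linarith),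
          Real.exp_log (by positivity), Real.exp_neg]
        field_simp
      rw [← e1]
      exact mul_le_mul_of_nonneg_left hHc (Real.exp_pos _).le
    have hsc : ‖s - c‖ ≤ R / 6 := by
      have e : s - c = ((x - R / 8 : ℝ) : ℂ) := by rw [hs, hc]; push_cast; ring
      rw [e, Complex.norm_real, Real.norm_eq_abs, abs_le]
      constructor <;> linarith
    have hzf : ∀ z ∈ {s : ℂ | 1 - η < s.re}, s.re ≤ z.re → H z ≠ 0 := by
      intro z _ hz
      rw [hsre] at hz
      have hz1 : 1 < z.re := by linarith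
      rw [heq z hz1]
      refine mul_ne_zero ?_ (hPSL ψ hψ1 z hz1).1
      intro h
      rw [sub_eq_zero] at h
      rw [h, Complex.one_re] at hz1
      exact lt_irrefl _ hz1
    obtain ⟨hl1, hl2⟩ := LD.landau hUo hR0 hM0 (fun z hz => (hball z hz).1) hd hHb hHc0 hsc hzf
    have hs1 : 1 < s.re := by rw [hsre]; linarith
    obtain ⟨hne, hdiff, hps⟩ := hPSL ψ hψ1 s hs1
    have hs10 : s - 1 ≠ 0 := by
      intro h
      rw [sub_eq_zero] at h
      rw [h, Complex.one_re] at hs1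
      exact lt_irrefl _ hs1
    have hld : logDeriv H s = (s - 1)⁻¹ + logDeriv (LI (ψ : Ideal (𝓞 K) → ℂ)) s := by
      have e2 : H =ᶠ[nhds s] fun z => (z - 1) * LI (ψ : Ideal (𝓞 K) → ℂ) z := by
        filter_upwards [(isOpen_lt continuous_const Complex.continuous_re).mem_nhds hs1]
          with z hz
        exact heq z hz
      have e1 : logDeriv H s = logDeriv (fun z => (z - 1) * LI (ψ : Ideal (𝓞 K) → ℂ) z) s := by
        rw [logDeriv_apply, logDeriv_apply, e2.deriv_eq, e2.eq_of_nhds]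
      rw [e1, logDeriv_mul s hs10 hne (by fun_prop) hdiff]
      congr 1
      rw [logDeriv_apply]
      simp
    have hre1 : ((s - 1)⁻¹).re = x / (x ^ 2 + u ^ 2) := by
      have e : s - 1 = ⟨x, u⟩ := by
        apply Complex.ext
        · rw [Complex.sub_re, hsre, Complex.one_re]; ring
        · rw [Complex.sub_im, hsim, Complex.one_im]; ring
      rw [e, Complex.inv_re, Complex.normSq_mk]
      ring_nf
    rw [hsre, hsim, show (1 + x - 1 : ℝ) = x by ring] at hps
    have hps' : (PSL ψ x u).re ≤ -(logDeriv (LI (ψ : Ideal (𝓞 K) → ℂ)) s).re + C₁ := by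
      have h1 := (Complex.re_le_norm (logDeriv (LI (ψ : Ideal (𝓞 K) → ℂ)) s + PSL ψ x u)).trans hps
      rw [Complex.add_re] at h1
      linarith
    have hMR : 72 * M / R ≤ 72 * T / R * Λ := by
      rw [div_mul_eq_mul_div]
      refine div_le_div_of_nonneg_right ?_ hR0.le
      linarith
    have hld' : (logDeriv H s).re = x / (x ^ 2 + u ^ 2) +
        (logDeriv (LI (ψ : Ideal (𝓞 K) → ℂ)) s).re := by
      rw [hld, Complex.add_re, hre1]
    have hR2 : 0 ≤ 9 / R := by positivity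
    constructor
    · have h5 := hfin (72 * M / R + C₁) (by linarith)
      linarith
    · intro hBD
      have hH1 := H_one_eq_zero hBD hη hd heq
      rcases le_or_gt ‖(1 : ℂ) - c‖ (R / 3) with h1c | h1c
      · have h6 := hl2 1 h1c hH1
        rw [hre1] at h6
        have h5 := hfin (72 * M / R + C₁) (by linarith)
        linarith
      · have h7 : R / 6 ≤ |u| := by
          by_contra hcon
          push Not at hcon
          have e : (1 : ℂ) - c = ((-(R / 8) : ℝ) : ℂ) + ((-u : ℝ) : ℂ) * Complex.I := by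
            rw [hc]; push_cast; ring
          rw [e] at h1c
          have h8 := norm_add_le ((-(R / 8) : ℝ) : ℂ) (((-u : ℝ) : ℂ) * Complex.I)
          rw [norm_mul, Complex.norm_I, mul_one, Complex.norm_real, Complex.norm_real,
            Real.norm_eq_abs, Real.norm_eq_abs, abs_neg, abs_neg, abs_of_pos (by positivity)] at h8
          linarith
        have h9 : x / (x ^ 2 + u ^ 2) ≤ 9 / R := by
          have h10 : 0 < |u| := by linarith [show 0 < R / 6 by positivity]
          have h11 : u ^ 2 = |u| ^ 2 := (sq_abs u).symm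
          rw [h11, div_le_div_iff₀ (by positivity) hR0]
          have h13 : x * R ≤ x * (6 * |u|) :=
            mul_le_mul_of_nonneg_left (by linarith only [h7]) hx.le
          have h14 := sq_nonneg (x - |u|)
          have h15 := sq_nonneg x
          have h16 := sq_nonneg |u|
          linarith only [h13, h14, h15, h16]
        have h12 := hfin (72 * M / R + 9 / R + C₁) (by linarith)
        linarith

end Pool.Agent.Lib.MP_bf61d2_nt.Artin.Ray
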