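import Mathlib
import Pool.Agent.Lib.MP_bf61d2_nt.Trim.Artin.H.BASH36
import Pool.Agent.Lib.MP_bf61d2_nt.Trim.Artin.H.GROWH38
import Pool.Agent.Lib.MP_bf61d2_nt.Trim.Artin.H.LATH49
import Pool.Agent.Lib.MP_bf61d2_nt.Trim.Artin.H.LIPH90
import Pool.Agent.Lib.MP_bf61d2_nt.Trim.Artin.H.PERH39
import Pool.Agent.Lib.MP_bf61d2_nt.Trim.Artin.H.RESH84
import Pool.Agent.Lib.MP_bf61d2_nt.Trim.Artin.H.StmtsH
import Pool.Agent.Lib.MP_bf61d2_nt.Trim.Artin.L.ONEL63
import Pool.Agent.Lib.MP_bf61d2_nt.Trim.Artin.L.PSL88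
import Pool.Agent.Lib.MP_bf61d2_nt.Trim.Artin.L.StmtsL63
import Pool.Agent.Lib.MP_bf61d2_nt.Trim.Artin.R.StmtsR
import Pool.Agent.Lib.MP_bf61d2_nt.Trim.Artin.R.UNF88

set_option autoImplicit false

/-!
LOCAL (MP_bf61d2_nt): assembly.
-/

namespace NumberField
end NumberField

namespace Pool.Agent.Lib.MP_bf61d2_nt.Artin.Ray

open NumberField IsDedekindDomain

open scoped Classical

universe u

variable (K : Type u) [Field K] [NumberField K]

/-- The one sided bound of Landau and the dichotomy, without hypotheses. -/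
theorem onel_facts73 : StBASH K ∧ StRESH K ∧ StONEL K := by
  have hBAS : StBASH K := stBASH_36 K
  have hPER : StPERH K := stPERH_39 K hBAS
  have hUNF : StUNF K := stUNF_of K
  have hLIP : StLIPH K := stLIPH_of K
  have hSH : StSHIFTH K := stSHIFTH_of K hLIP
  have hLAT : StLATH K := stLATH_of K hLIP
  have hGROW : StGROWH K := stGROWH_of hBAS hPER hUNF hLAT
  have hRES : StRESH K := stRESH_of hBAS hPER hUNF hSH
  exact ⟨hBAS, hRES, stONEL_of K hBAS hGROW (stPSL K)⟩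

end Pool.Agent.Lib.MP_bf61d2_nt.Artin.Ray
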