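import Mathlib
import Pool.Agent.Lib.MP_bf61d2_nt.Trim.Artin.Defs63
import Pool.Agent.Lib.MP_bf61d2_nt.Trim.Artin.L.StmtsL63
import Pool.Agent.Lib.MP_bf61d2_nt.Trim.Artin.R.DefsR
import Pool.Agent.Lib.MP_bf61d2_nt.Trim.Artin.R.EUL52
import Pool.Agent.Lib.MP_bf61d2_nt.Trim.Places
import Pool.Agent.Lib.MP_bf61d2_nt.Trim.PrimeSum
import Pool.Agent.Lib.MP_bf61d2_nt.Trim.Zeta.Nonvanish

set_option autoImplicit false

/-!
LOCAL (MP_bf61d2_nt), module PSL: the logarithmic derivative of the Dirichlet series of a completely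
multiplicative function of the ideals, as a sum over the primes.
-/

namespace NumberField
end NumberField

namespace Pool.Agent.Lib.MP_bf61d2_nt.Zeta
end Pool.Agent.Lib.MP_bf61d2_nt.Zeta

namespace Pool.Agent.Lib.MP_bf61d2_nt.Artin.Ray.PSL88
end Pool.Agent.Lib.MP_bf61d2_nt.Artin.Ray.PSL88

namespace Pool.Agent.Lib.MP_bf61d2_nt.Artin.Ray

open NumberField IsDedekindDomain Filter Topology

open Pool.Agent.Lib.MP_bf61d2_nt.Zeta

universe u

namespace PSL88

variable {K : Type u} [Field K] [NumberField K]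

/-- The local terms. -/
noncomputable def z (ψ : Ideal (𝓞 K) →*₀ ℂ) (v : HeightOneSpectrum (𝓞 K)) (s : ℂ) : ℂ :=
  ψ v.asIdeal * ((nm v : ℕ) : ℂ) ^ (-s)

/-- The derivatives of the logarithms of the local factors. -/
noncomputable def dz (ψ : Ideal (𝓞 K) →*₀ ℂ) (v : HeightOneSpectrum (𝓞 K)) (s : ℂ) : ℂ :=
  -((Real.log (nm v) : ℂ) * (z ψ v s / (1 - z ψ v s)))

variable {ψ : Ideal (𝓞 K) →*₀ ℂ} (hψ : ∀ I, ‖ψ I‖ ≤ 1)

include hψ

lemma norm_z_le (v : HeightOneSpectrum (𝓞 K)) {s : ℂ} (hs : 1 < s.re) :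
    ‖z ψ v s‖ ≤ wp s.re v := by
  rw [z, norm_mul, Zeta.norm_term hs]
  exact mul_le_of_le_one_left (by positivity) (hψ _)

lemma norm_z_half (v : HeightOneSpectrum (𝓞 K)) {s : ℂ} (hs : 1 < s.re) :
    ‖z ψ v s‖ ≤ 1 / 2 := (norm_z_le hψ v hs).trans (wp_le_half hs.le v)

lemma slit (v : HeightOneSpectrum (𝓞 K)) {s : ℂ} (hs : 1 < s.re) :
    1 - z ψ v s ∈ Complex.slitPlane := by
  rw [sub_eq_add_neg]
  refine Complex.mem_slitPlane_of_norm_lt_one ?_
  rw [norm_neg]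
  exact lt_of_le_of_lt (norm_z_half hψ v hs) (by norm_num)

lemma norm_inv_le (v : HeightOneSpectrum (𝓞 K)) {s : ℂ} (hs : 1 < s.re) :
    ‖(1 - z ψ v s)⁻¹‖ ≤ 2 := by
  have h1 := norm_z_half hψ v hs
  have h2 : 1 / 2 ≤ ‖1 - z ψ v s‖ := by
    have := norm_sub_norm_le (1 : ℂ) (z ψ v s)
    rw [norm_one] at this
    linarith
  rw [norm_inv, inv_le_comm₀ (by linarith) (by norm_num)]
  linarith

omit hψ in
lemma hasDerivAt_z (v : HeightOneSpectrum (𝓞 K)) (s : ℂ) :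
    HasDerivAt (z ψ v) (-(Real.log (nm v) : ℂ) * z ψ v s) s := by
  have h0 : (nm v : ℂ) ≠ 0 := by
    have := nm_pos' v
    exact_mod_cast this.ne'
  have h1 := ((hasDerivAt_id s).neg).const_cpow (c := (nm v : ℂ)) (Or.inl h0)
  have h2 := h1.const_mul (ψ v.asIdeal)
  refine (h2.congr_of_eventuallyEq (Eventually.of_forall fun w => rfl)).congr_deriv ?_
  rw [← Complex.natCast_log, z]
  simp only [id_eq, Pi.neg_apply]
  ring

lemma hasDerivAt_log (v : HeightOneSpectrum (𝓞 K)) {s : ℂ} (hs : 1 < s.re) :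
    HasDerivAt (fun s => -Complex.log (1 - z ψ v s)) (dz ψ v s) s := by
  have h3 : HasDerivAt (fun s => 1 - z ψ v s) (-(-(Real.log (nm v) : ℂ) * z ψ v s)) s := by
    have := (hasDerivAt_const s (1 : ℂ)).sub (hasDerivAt_z (ψ := ψ) v s)
    exact this.congr_deriv (by ring)
  have h4 := (h3.clog (slit hψ v hs)).neg
  refine h4.congr_deriv ?_
  rw [dz]
  ring

lemma norm_log_le (v : HeightOneSpectrum (𝓞 K)) {s : ℂ} (hs : 1 < s.re) :
    ‖-Complex.log (1 - z ψ v s)‖ ≤ 2 * wp s.re v := by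
  have h := norm_z_half hψ v hs
  rw [norm_neg, sub_eq_add_neg]
  refine (Complex.norm_log_one_add_half_le_self (by rwa [norm_neg])).trans ?_
  rw [norm_neg]
  have := norm_z_le hψ v hs
  have := norm_nonneg (z ψ v s)
  linarith

lemma norm_dz_le (v : HeightOneSpectrum (𝓞 K)) {σ : ℝ} (hσ : 1 < σ) {s : ℂ} (hs : σ < s.re) :
    ‖dz ψ v s‖ ≤ 2 * wl (σ - 1) v := by
  have hs1 : 1 < s.re := hσ.trans hs
  have hl := (log_nm_pos v).le
  have hz := norm_z_le hψ v hs1
  have hi := norm_inv_le hψ v hs1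
  rw [dz, norm_neg, norm_mul, div_eq_mul_inv, norm_mul, Complex.norm_real, Real.norm_eq_abs,
    abs_of_nonneg hl, wl, add_sub_cancel]
  have hw : wp s.re v ≤ wp σ v :=
    Real.rpow_le_rpow_of_exponent_le (by exact_mod_cast (one_lt_nm v).le) (by linarith)
  calc Real.log (nm v) * (‖z ψ v s‖ * ‖(1 - z ψ v s)⁻¹‖) ≤
        Real.log (nm v) * (wp σ v * 2) := by
        refine mul_le_mul_of_nonneg_left ?_ hl
        exact mul_le_mul (hz.trans hw) hi (norm_nonneg _) (wp_pos _ v).le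
    _ = _ := by ring

lemma summable_log {s : ℂ} (hs : 1 < s.re) :
    Summable fun v : HeightOneSpectrum (𝓞 K) => -Complex.log (1 - z ψ v s) :=
  Summable.of_norm_bounded ((summable_wp (K := K) hs).mul_left 2) fun v => norm_log_le hψ v hs

lemma exp_eq {s : ℂ} (hs : 1 < s.re) :
    Complex.exp (∑' v : HeightOneSpectrum (𝓞 K), -Complex.log (1 - z ψ v s)) =
      LI (ψ : Ideal (𝓞 K) → ℂ) s := by
  have h1 := E52.tendsto_euler_sm hψ hs
  have h2 : Tendsto (fun S : Finset (HeightOneSpectrum (𝓞 K)) =>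
      Complex.exp (∑ v ∈ S, -Complex.log (1 - z ψ v s))) atTop
      (𝓝 (Complex.exp (∑' v : HeightOneSpectrum (𝓞 K), -Complex.log (1 - z ψ v s)))) :=
    (Complex.continuous_exp.tendsto _).comp (summable_log hψ hs).hasSum
  refine tendsto_nhds_unique h2 (h1.congr fun S => ?_)
  rw [Complex.exp_sum]
  refine Finset.prod_congr rfl fun v _ => ?_
  rw [Complex.exp_neg, Complex.exp_log (Complex.slitPlane_ne_zero (slit hψ v hs))]
  rfl

lemma hasDerivAt_sum {s : ℂ} (hs : 1 < s.re) :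
    HasDerivAt (fun s => ∑' v : HeightOneSpectrum (𝓞 K), -Complex.log (1 - z ψ v s))
      (∑' v, dz ψ v s) s := by
  obtain ⟨σ, h1, h2⟩ := exists_between hs
  have hopen : IsOpen {s : ℂ | σ < s.re} := isOpen_lt continuous_const Complex.continuous_re
  have hconv : IsPreconnected {s : ℂ | σ < s.re} := (convex_halfSpace_re_gt σ).isPreconnected
  exact hasDerivAt_tsum_of_isPreconnected (u := fun v => 2 * wl (σ - 1) v)
    ((summable_wl (by linarith)).mul_left 2) hopen hconv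
    (fun v w hw => hasDerivAt_log hψ v (h1.trans hw)) (fun v w hw => norm_dz_le hψ v h1 hw)
    (show s ∈ {s : ℂ | σ < s.re} from h2) (summable_log hψ hs) h2

lemma hasDerivAt_LI {s : ℂ} (hs : 1 < s.re) :
    HasDerivAt (LI (ψ : Ideal (𝓞 K) → ℂ))
      (LI (ψ : Ideal (𝓞 K) → ℂ) s * ∑' v, dz ψ v s) s := by
  have h1 := (hasDerivAt_sum hψ hs).cexp
  rw [exp_eq hψ hs] at h1
  refine h1.congr_of_eventuallyEq ?_
  have hopen : IsOpen {s : ℂ | 1 < s.re} := isOpen_lt continuous_const Complex.continuous_re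
  filter_upwards [hopen.mem_nhds hs] with w hw
  exact (exp_eq hψ hw).symm

omit hψ in
lemma term_eq (v : HeightOneSpectrum (𝓞 K)) (s : ℂ) :
    (wl (s.re - 1) v : ℂ) * (ψ v.asIdeal * ph s.im (nm v)) = Real.log (nm v) * z ψ v s := by
  have h0 : (nm v : ℂ) ≠ 0 := by
    have := nm_pos' v
    exact_mod_cast this.ne'
  rw [z, wl, add_sub_cancel]
  conv_rhs => rw [← Complex.re_add_im s]
  rw [neg_add, Complex.cpow_add _ _ h0]
  have e1 : ((nm v : ℂ)) ^ (-(s.re : ℂ)) = ((wp s.re v : ℝ) : ℂ) := by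
    rw [wp, Complex.ofReal_cpow (Nat.cast_nonneg _)]
    push_cast
    rfl
  have e2 : ((nm v : ℂ)) ^ (-((s.im : ℂ) * Complex.I)) = ph s.im (nm v) := by
    rw [Complex.cpow_def_of_ne_zero h0, ph]
    congr 1
    have e3 : Complex.log (nm v : ℂ) = ((Real.log (nm v) : ℝ) : ℂ) := by
      rw [Complex.natCast_log]
    rw [e3]
    push_cast
    ring
  rw [e1, e2]
  push_cast
  ring

end PSL88

open PSL88 in
/-- PSL: the logarithmic derivative and the prime sum. -/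
theorem stPSL (K : Type u) [Field K] [NumberField K] : StPSL K := by
  have hw1 := summable_wl (K := K) (x := 1) one_pos
  refine ⟨2 * ∑' v : HeightOneSpectrum (𝓞 K), wl 1 v,
    mul_nonneg two_pos.le (tsum_nonneg fun v => wl_nonneg 1 v), fun ψ hψ s hs => ?_⟩
  have hne : LI (ψ : Ideal (𝓞 K) → ℂ) s ≠ 0 := by
    rw [← exp_eq hψ hs]
    exact Complex.exp_ne_zero _
  have hd := hasDerivAt_LI hψ hs
  refine ⟨hne, hd.differentiableAt, ?_⟩
  have e0 : PSL ψ (s.re - 1) s.im =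
      ∑' v : HeightOneSpectrum (𝓞 K), (Real.log (nm v) : ℂ) * z ψ v s := by
    rw [PSL, WL]
    exact tsum_congr fun v => term_eq (ψ := ψ) v s
  rw [logDeriv_apply, hd.deriv, mul_div_cancel_left₀ _ hne, e0]
  have hs1 : Summable fun v : HeightOneSpectrum (𝓞 K) => dz ψ v s := by
    obtain ⟨σ, h1, h2⟩ := exists_between hs
    exact Summable.of_norm_bounded ((summable_wl (by linarith : 0 < σ - 1)).mul_left 2)
      fun v => norm_dz_le hψ v h1 h2
  have hs2 : Summable fun v : HeightOneSpectrum (𝓞 K) => (Real.log (nm v) : ℂ) * z ψ v s := by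
    refine Summable.of_norm_bounded (summable_wl (by linarith : 0 < s.re - 1)) fun v => ?_
    rw [norm_mul, Complex.norm_real, Real.norm_eq_abs, abs_of_pos (log_nm_pos v), wl,
      add_sub_cancel, mul_comm]
    exact mul_le_mul_of_nonneg_right (norm_z_le hψ v hs) (log_nm_pos v).le
  rw [← hs1.tsum_add hs2]
  refine tsum_of_norm_bounded (hw1.hasSum.mul_left 2) fun v => ?_
  have hne1 : 1 - z ψ v s ≠ 0 := Complex.slitPlane_ne_zero (slit hψ v hs)
  have e : dz ψ v s + (Real.log (nm v) : ℂ) * z ψ v s =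
      -((Real.log (nm v) : ℂ) * (z ψ v s * z ψ v s * (1 - z ψ v s)⁻¹)) := by
    rw [dz]
    field_simp
    ring
  have hq : (0 : ℝ) < nm v := nm_pos' v
  have hz : ‖z ψ v s‖ ≤ (nm v : ℝ) ^ (-1 : ℝ) := (norm_z_le hψ v hs).trans
    (Real.rpow_le_rpow_of_exponent_le (by exact_mod_cast (one_lt_nm v).le) (by linarith))
  rw [e, norm_neg, norm_mul, norm_mul, norm_mul, Complex.norm_real, Real.norm_eq_abs,
    abs_of_pos (log_nm_pos v), wl, wp]
  have e2 : (nm v : ℝ) ^ (-(1 + 1) : ℝ) = (nm v : ℝ) ^ (-1 : ℝ) * (nm v : ℝ) ^ (-1 : ℝ) := by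
    rw [← Real.rpow_add hq]
    norm_num
  rw [e2]
  have hl := (log_nm_pos v).le
  have hp : 0 ≤ (nm v : ℝ) ^ (-1 : ℝ) := Real.rpow_nonneg hq.le _
  calc Real.log (nm v) * (‖z ψ v s‖ * ‖z ψ v s‖ * ‖(1 - z ψ v s)⁻¹‖) ≤
        Real.log (nm v) * ((nm v : ℝ) ^ (-1 : ℝ) * (nm v : ℝ) ^ (-1 : ℝ) * 2) := by
        refine mul_le_mul_of_nonneg_left ?_ hl
        refine mul_le_mul ?_ (norm_inv_le hψ v hs) (norm_nonneg _) (mul_nonneg hp hp)
        exact mul_le_mul hz hz (norm_nonneg _) hp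
    _ = _ := by ring

end Pool.Agent.Lib.MP_bf61d2_nt.Artin.Ray
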